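import Pool.Agent.Y440.LC.Main2

set_option autoImplicit false

/-!
# MP_f6c7cf_nt: prime factors of `2^x + 2^y + 2^z + 1` beyond `log n`

For odd `n` the quadruples `(x, y, z, w)` of natural numbers with `n = x² + y² + z² + 4 w²` are
considered; `N` stands for `2^x + 2^y + 2^z + 1`, and `Q(n) = c log n log log n / log log log n`.

Every large odd `n` has at least `n ^ (1 - ε)` quadruples for which every prime factor `q ≤ Q(n)` of
`N` is odd and exceptional: `l²` divides the order of `2` modulo `q` for a prime `l ≥ 5` that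
divides `(3n-2)(9n-2)`, or `3` divides this order, where the second case does not occur for `q = 7`,
nor if `3 ∣ n` or `n ≡ 13 mod 32`.

The proof uses the counting theorems of the starting result ManyPrimesToLog, where the range of the
primes was `q ≤ c log n`, with a smaller modulus: a common multiple `K` of the numbers `q - 1`, `q` a
prime, `q ≤ Z`, with `log K = O(Z log log Z / log Z)` (upper bound sieve for the primes `l` such that
`g l + 1` is a prime), and the least common multiple of those divisors of `K` which are not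
exceptional.
-/

namespace Pool.Agent.Results.MP_f6c7cf_nt.BeyondLogarithm

theorem result (ε : ℝ) (hε : 0 < ε) : ∃ c : ℝ, 0 < c ∧ ∃ n₀ : ℕ, ∀ n : ℕ, n₀ ≤ n → Odd n →
    ∃ S : Finset (ℕ × ℕ × ℕ × ℕ), (n : ℝ) ^ (1 - ε) ≤ (S.card : ℝ) ∧
      ∀ x y z w : ℕ, (x, y, z, w) ∈ S → n = x ^ 2 + y ^ 2 + z ^ 2 + 4 * w ^ 2 ∧
        ∀ q : ℕ, q.Prime → q ∣ 2 ^ x + 2 ^ y + 2 ^ z + 1 →
          (q : ℝ) ≤ c * (Real.log n * Real.log (Real.log n) / Real.log (Real.log (Real.log n))) →
          q ≠ 2 ∧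
          ((∃ l : ℕ, l.Prime ∧ 5 ≤ l ∧ l ^ 2 ∣ orderOf (2 : ZMod q) ∧
              (l : ℤ) ∣ (3 * n - 2) * (9 * n - 2)) ∨
            (¬ 3 ∣ n ∧ n % 32 ≠ 13 ∧ q ≠ 7 ∧ 3 ∣ orderOf (2 : ZMod q))) :=
  Pool.Agent.Y440.LC.main2 ε hε

end Pool.Agent.Results.MP_f6c7cf_nt.BeyondLogarithm
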